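import Pool.Agent.Lib.MP_c2491a_co.Check

/-!
A spectral polytope with trivial symmetry group.

The polytope has 27 vertices in `ℝ^9`; its edge graph is the complement of the line graph of an
asymmetric cubic graph `K` on 18 vertices, and the eigenvalue is `1` (the second largest one).
-/

open Set

namespace Pool.Agent.Results.MP_c2491a_co.AsymmetricSpectral

/-- The points `p 0, ..., p (n-1)` are distinct and they are exactly the vertices (extreme points)
of the polytope `conv {p 0, ..., p (n-1)}`. -/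
def IsVertexList {n d : ℕ} (p : Fin n → (Fin d → ℝ)) : Prop :=
  Function.Injective p ∧
    (convexHull ℝ (Set.range p)).extremePoints ℝ = Set.range p

/-- The edge-graph of the polytope `conv {p 0, ..., p (n-1)}`: `i` and `j` are adjacent exactly when
`i ≠ j` and the segment `conv {p i, p j}` is an (exposed) face of the polytope. -/
def edgeGraph {n d : ℕ} (p : Fin n → (Fin d → ℝ)) : SimpleGraph (Fin n) where
  Adj i j := i ≠ j ∧ IsExposed ℝ (convexHull ℝ (Set.range p)) (segment ℝ (p i) (p j))
  symm := ⟨fun i j h => ⟨h.1.symm, by rw [segment_symm]; exact h.2⟩⟩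
  loopless := ⟨fun i h => h.1 rfl⟩

open Classical in
/-- The polytope with vertices `p 0, ..., p (n-1)` is spectral: there is an eigenvalue `θ` of the
adjacency matrix of its edge-graph such that the columns of the matrix with rows `p i` form a basis
of the `θ`-eigenspace. -/
def IsSpectral {n d : ℕ} (p : Fin n → (Fin d → ℝ)) : Prop :=
  IsVertexList p ∧
    ∃ θ : ℝ,
      Module.End.HasEigenvalue (Matrix.toLin' ((edgeGraph p).adjMatrix ℝ)) θ ∧
      LinearIndependent ℝ (fun (k : Fin d) => (fun (i : Fin n) => p i k)) ∧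
      Submodule.span ℝ (Set.range (fun (k : Fin d) => (fun (i : Fin n) => p i k))) =
        Module.End.eigenspace (Matrix.toLin' ((edgeGraph p).adjMatrix ℝ)) θ

section General

variable {E : Type*} [AddCommGroup E] [Module ℝ E]

lemma mem_hull {n : ℕ} (p : Fin n → E) {x : E} (hx : x ∈ convexHull ℝ (range p)) :
    ∃ w : Fin n → ℝ, (∀ i, 0 ≤ w i) ∧ ∑ i, w i = 1 ∧ ∑ i, w i • p i = x := by
  have h : convexHull ℝ (range p) ⊆
      {x | ∃ w : Fin n → ℝ, (∀ i, 0 ≤ w i) ∧ ∑ i, w i = 1 ∧ ∑ i, w i • p i = x} := by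
    apply convexHull_min
    · rintro _ ⟨i, rfl⟩
      refine ⟨fun j => if j = i then 1 else 0, fun j => ?_, ?_, ?_⟩
      · dsimp only; split_ifs <;> norm_num
      · simp
      · simp
    · rintro x ⟨w, hw0, hw1, rfl⟩ y ⟨v, hv0, hv1, rfl⟩ a b ha hb hab
      refine ⟨fun i => a * w i + b * v i, fun i => ?_, ?_, ?_⟩
      · exact add_nonneg (mul_nonneg ha (hw0 i)) (mul_nonneg hb (hv0 i))
      · rw [Finset.sum_add_distrib, ← Finset.mul_sum, ← Finset.mul_sum, hw1, hv1]
        linarith
      · simp only [add_smul, mul_smul, Finset.sum_add_distrib, ← Finset.smul_sum]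
  exact h hx

variable [TopologicalSpace E]

/-- A continuous linear functional that takes its maximum `h` over the points `p m` exactly for
`m ∈ S` exposes `conv {p m : m ∈ S}`. -/
lemma exposed_of_functional {n : ℕ} (p : Fin n → E) (l : E →L[ℝ] ℝ) (h : ℝ) (S : Set (Fin n))
    (h1 : ∀ m ∈ S, l (p m) = h) (h2 : ∀ m, m ∉ S → l (p m) < h) :
    IsExposed ℝ (convexHull ℝ (range p)) (convexHull ℝ (p '' S)) := by
  intro hne
  refine ⟨l, ?_⟩
  have hSne : S.Nonempty := by
    rw [convexHull_nonempty_iff] at hne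
    exact hne.of_image
  obtain ⟨m0, hm0⟩ := hSne
  have hle : ∀ m, l (p m) ≤ h := by
    intro m
    by_cases hm : m ∈ S
    · exact (h1 m hm).le
    · exact (h2 m hm).le
  have hP : ∀ y ∈ convexHull ℝ (range p), l y ≤ h := by
    intro y hy
    obtain ⟨w, hw0, hw1, rfl⟩ := mem_hull p hy
    rw [map_sum]
    calc ∑ i, l (w i • p i) = ∑ i, w i * l (p i) := by simp
      _ ≤ ∑ i, w i * h := Finset.sum_le_sum fun i _ => mul_le_mul_of_nonneg_left (hle i) (hw0 i)
      _ = h := by rw [← Finset.sum_mul, hw1, one_mul]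
  apply Subset.antisymm
  · intro x hx
    have hxP : x ∈ convexHull ℝ (range p) :=
      convexHull_mono (image_subset_range p S) hx
    refine ⟨hxP, fun y hy => ?_⟩
    have hxl : l x = h := by
      have hsub : convexHull ℝ (p '' S) ⊆ {x | l x = h} := by
        apply convexHull_min
        · rintro _ ⟨m, hm, rfl⟩
          exact h1 m hm
        · intro x hx y hy a b _ _ hab
          simp only [mem_ofPred_eq] at hx hy ⊢
          rw [map_add, map_smul, map_smul, hx, hy, ← add_smul, hab, one_smul]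
      exact hsub hx
    rw [hxl]
    exact hP y hy
  · rintro x ⟨hxP, hx⟩
    obtain ⟨w, hw0, hw1, rfl⟩ := mem_hull p hxP
    have hge : h ≤ l (∑ i, w i • p i) := by
      rw [← h1 m0 hm0]
      exact hx _ (subset_convexHull ℝ _ (mem_range_self m0))
    have hsum : ∑ i, w i * (h - l (p i)) ≤ 0 := by
      have : ∑ i, w i * (h - l (p i)) = h - l (∑ i, w i • p i) := by
        simp only [mul_sub, Finset.sum_sub_distrib, ← Finset.sum_mul, hw1, one_mul, map_sum,
          map_smul, smul_eq_mul]
      rw [this]; linarith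
    have hnn : ∀ i ∈ (Finset.univ : Finset (Fin n)), 0 ≤ w i * (h - l (p i)) := fun i _ =>
      mul_nonneg (hw0 i) (sub_nonneg.2 (hle i))
    have hz := (Finset.sum_eq_zero_iff_of_nonneg hnn).1
      (le_antisymm hsum (Finset.sum_nonneg hnn))
    have hw : ∀ i, i ∉ S → w i = 0 := by
      intro i hi
      have := hz i (Finset.mem_univ i)
      rcases mul_eq_zero.1 this with h3 | h3
      · exact h3
      · exact absurd (h2 i hi) (by linarith)
    classical
    apply mem_convexHull_of_exists_fintype w (fun i => if i ∈ S then p i else p m0) hw0 hw1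
    · intro i
      by_cases hi : i ∈ S
      · simp only [if_pos hi]; exact mem_image_of_mem p hi
      · simp only [if_neg hi]; exact mem_image_of_mem p hm0
    · apply Finset.sum_congr rfl
      intro i _
      by_cases hi : i ∈ S
      · simp only [if_pos hi]
      · rw [hw i hi, zero_smul, zero_smul]

end General

section Concrete

open Pool.Agent.Lib.MP_c2491a_co.Data

/-- The 27 vertices in `ℝ^9`. -/
noncomputable def pt (i : Fin 27) : Fin 9 → ℝ := fun k => (U i k : ℝ)

/-- Index of the `k`-th coordinate edge. -/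
def ce (k : Fin 9) : Fin 27 := Fin.castLE (by norm_num) k

lemma eig_formula (x : Fin 27 → ℝ) (hx : ∀ i, ∑ j, (A i j : ℝ) * x j = x i) (m : Fin 27) :
    x m = ∑ k : Fin 9, (U m k : ℝ) * x (ce k) := by
  have h1 : ∑ j, (∑ i, (C m i : ℝ) * ((A i j : ℝ) - if i = j then 1 else 0)) * x j = 0 := by
    have : ∑ j, (∑ i, (C m i : ℝ) * ((A i j : ℝ) - if i = j then 1 else 0)) * x j
        = ∑ i, (C m i : ℝ) * (∑ j, (A i j : ℝ) * x j - x i) := by
      simp only [Finset.sum_mul]
      rw [Finset.sum_comm]
      apply Finset.sum_congr rfl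
      intro i _
      rw [mul_sub, Finset.mul_sum]
      have h3 : (C m i : ℝ) * x i = ∑ j, (C m i : ℝ) * ((if i = j then 1 else 0) * x j) := by
        simp
      rw [h3, ← Finset.sum_sub_distrib]
      apply Finset.sum_congr rfl
      intro j _
      ring
    rw [this]
    simp [hx]
  have h2 : ∀ j, (∑ i, (C m i : ℝ) * ((A i j : ℝ) - if i = j then 1 else 0)) =
      14 * ((if m = j then 1 else 0) - ∑ k : Fin 9, (U m k : ℝ) * (if k.1 = j.1 then 1 else 0)) := by
    intro j
    have := hC m j
    exact_mod_cast this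
  simp only [h2] at h1
  have h4 : ∑ j, 14 * ((if m = j then (1 : ℝ) else 0) -
      ∑ k : Fin 9, (U m k : ℝ) * (if k.1 = j.1 then 1 else 0)) * x j
      = 14 * (x m - ∑ k : Fin 9, (U m k : ℝ) * x (ce k)) := by
    have h5 : ∀ j, 14 * ((if m = j then (1 : ℝ) else 0) -
      ∑ k : Fin 9, (U m k : ℝ) * (if k.1 = j.1 then 1 else 0)) * x j =
      14 * ((if m = j then (1 : ℝ) else 0) * x j) -
      14 * ∑ k : Fin 9, (U m k : ℝ) * ((if k.1 = j.1 then 1 else 0) * x j) := by
      intro j
      rw [mul_sub, sub_mul, Finset.mul_sum, Finset.sum_mul, Finset.mul_sum]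
      congr 1
      · ring
      · apply Finset.sum_congr rfl
        intro k _
        ring
    simp only [h5]
    rw [Finset.sum_sub_distrib, ← Finset.mul_sum, ← Finset.mul_sum, mul_sub]
    congr 2
    · simp
    · rw [Finset.sum_comm]
      apply Finset.sum_congr rfl
      intro k _
      rw [← Finset.mul_sum]
      congr 1
      rw [Finset.sum_eq_single (ce k)]
      · simp [ce]
      · intro j _ hj
        have : ¬ (k.1 = j.1) := fun h => hj (Fin.ext (by simp [ce, h]))
        simp [this]
      · simp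
  rw [h4] at h1
  linarith

lemma eig_of_coords (c : Fin 9 → ℝ) (i : Fin 27) :
    ∑ j, (A i j : ℝ) * (∑ k, c k * (U j k : ℝ)) = ∑ k, c k * (U i k : ℝ) := by
  simp only [Finset.mul_sum]
  rw [Finset.sum_comm]
  apply Finset.sum_congr rfl
  intro k _
  have h := hAU i k
  have h' : ∑ j, (A i j : ℝ) * (U j k : ℝ) = (U i k : ℝ) := by exact_mod_cast h
  rw [← h', Finset.mul_sum]
  apply Finset.sum_congr rfl
  intro j _
  ring

/-- The linear functional attached to the `t`-th fractional perfect matching. -/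
noncomputable def fn (t : Fin 31) : (Fin 9 → ℝ) →L[ℝ] ℝ :=
  ∑ k : Fin 9, ((2 / 3 : ℝ) - (M t (ce k) : ℝ)) • ContinuousLinearMap.proj (R := ℝ) k

lemma fn_apply (t : Fin 31) (y : Fin 9 → ℝ) :
    fn t y = ∑ k : Fin 9, ((2 / 3 : ℝ) - (M t (ce k) : ℝ)) * y k := by
  simp [fn]

lemma fn_pt (t : Fin 31) (m : Fin 27) : fn t (pt m) = 2 / 3 - (M t m : ℝ) := by
  rw [fn_apply]
  have h := eig_formula (fun j => (2 / 3 : ℝ) - (M t j : ℝ)) ?_ m
  · rw [h]
    apply Finset.sum_congr rfl
    intro k _
    simp only [pt]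
    ring
  · intro i
    have h1 : ∑ j, (A i j : ℝ) = 22 := by exact_mod_cast hA1 i
    have h2 : ∑ j, (A i j : ℝ) * (M t j : ℝ) = 14 + (M t i : ℝ) := by exact_mod_cast hAM t i
    simp only [mul_sub, Finset.sum_sub_distrib, h2]
    rw [← Finset.sum_mul, h1]
    ring

lemma M_nonneg (t : Fin 31) (m : Fin 27) : (0 : ℝ) ≤ (M t m : ℝ) := by
  exact_mod_cast hM_nonneg t m

open Classical in
/-- Exposure of `conv {p m : m ∈ S}` from the combinatorial condition. -/
lemma exposed_of_cond (S : Set (Fin 27))
    (hS : ∀ k, k ∉ S → ∃ t : Fin 31, (∀ i ∈ S, M t i = 0) ∧ M t k ≠ 0) :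
    IsExposed ℝ (convexHull ℝ (range pt)) (convexHull ℝ (pt '' S)) := by
  set T : Finset (Fin 31) := Finset.univ.filter (fun t => ∀ i ∈ S, M t i = 0) with hT
  apply exposed_of_functional pt (∑ t ∈ T, fn t) (∑ _t ∈ T, (2 / 3 : ℝ)) S
  · intro m hm
    rw [sum_apply]
    apply Finset.sum_congr rfl
    intro t ht
    rw [hT, Finset.mem_filter] at ht
    rw [fn_pt, ht.2 m hm]
    simp
  · intro m hm
    rw [sum_apply]
    obtain ⟨t, ht1, ht2⟩ := hS m hm
    apply Finset.sum_lt_sum
    · intro s _
      rw [fn_pt]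
      linarith [M_nonneg s m]
    · refine ⟨t, ?_, ?_⟩
      · rw [hT, Finset.mem_filter]; exact ⟨Finset.mem_univ _, ht1⟩
      · rw [fn_pt]
        have h1 : (M t m : ℝ) ≠ 0 := by exact_mod_cast ht2
        have h2 := M_nonneg t m
        have h3 : 0 < (M t m : ℝ) := lt_of_le_of_ne h2 (Ne.symm h1)
        linarith

lemma pt_inj : Function.Injective pt := by
  intro i j h
  apply hUinj
  intro k
  have := congrFun h k
  simp only [pt] at this
  exact_mod_cast this

lemma pt_exposed (i : Fin 27) : IsExposed ℝ (convexHull ℝ (range pt)) {pt i} := by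
  have h := exposed_of_cond {i} (by
    intro k hk
    obtain ⟨t, h1, h2⟩ := hM_single i k (by simpa using hk)
    exact ⟨t, by simpa using h1, h2⟩)
  simpa using h

lemma pt_extreme (i : Fin 27) : pt i ∈ (convexHull ℝ (range pt)).extremePoints ℝ := by
  rw [← isExtreme_singleton]
  exact (pt_exposed i).isExtreme

lemma vertexList : IsVertexList pt := by
  refine ⟨pt_inj, Subset.antisymm extremePoints_convexHull_subset ?_⟩
  rintro _ ⟨i, rfl⟩
  exact pt_extreme i

lemma adj_of_disj {i j : Fin 27} (h : disj i j = true) : (edgeGraph pt).Adj i j := by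
  refine ⟨?_, ?_⟩
  · rintro rfl
    rw [hdisj_irrefl] at h
    exact absurd h (by decide)
  · have h1 := exposed_of_cond {i, j} (by
      intro k hk
      have hki : k ≠ i := fun h => hk (by simp [h])
      have hkj : k ≠ j := fun h => hk (by simp [h])
      obtain ⟨t, h1, h2, h3⟩ := hM_pair i j k h hki hkj
      refine ⟨t, ?_, h3⟩
      intro m hm
      rcases hm with rfl | hm
      · exact h1
      · rw [mem_singleton_iff.1 hm]; exact h2)
    rwa [image_pair, convexHull_pair] at h1

lemma disj_of_adj {i j : Fin 27} (h : (edgeGraph pt).Adj i j) : disj i j = true := by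
  obtain ⟨hne, hexp⟩ := h
  by_contra hd
  rw [Bool.not_eq_true] at hd
  obtain ⟨h1, h2, h3⟩ := hnonedge i j hne hd
  set k := wit1 i j
  set l := wit2 i j
  have hext := hexp.isExtreme
  have hsum : ∀ c, pt i c + pt j c = pt k c + pt l c := by
    intro c
    simp only [pt]
    exact_mod_cast h3 c
  have hmid : (1 / 2 : ℝ) • pt i + (1 / 2 : ℝ) • pt j = (1 / 2 : ℝ) • pt k + (1 / 2 : ℝ) • pt l := by
    funext c
    have := hsum c
    simp only [Pi.add_apply, Pi.smul_apply, smul_eq_mul]
    linarith
  have hk : pt k ∈ segment ℝ (pt i) (pt j) := by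
    apply hext.left_mem_of_mem_openSegment (subset_convexHull ℝ _ (mem_range_self k))
      (subset_convexHull ℝ _ (mem_range_self l))
      (z := (1 / 2 : ℝ) • pt i + (1 / 2 : ℝ) • pt j)
    · exact ⟨1 / 2, 1 / 2, by norm_num, by norm_num, by norm_num, rfl⟩
    · rw [hmid]
      exact ⟨1 / 2, 1 / 2, by norm_num, by norm_num, by norm_num, rfl⟩
  have hkext := pt_extreme k
  have hsub : segment ℝ (pt i) (pt j) ⊆ convexHull ℝ (range pt) :=
    (convex_convexHull ℝ _).segment_subset (subset_convexHull ℝ _ (mem_range_self i))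
      (subset_convexHull ℝ _ (mem_range_self j))
  rw [mem_extremePoints_iff_forall_segment] at hkext
  rcases hkext.2 _ (subset_convexHull ℝ _ (mem_range_self i)) _
      (subset_convexHull ℝ _ (mem_range_self j)) hk with h | h
  · exact h1 (pt_inj h.symm)
  · exact h2 (pt_inj h.symm)

lemma adj_iff (i j : Fin 27) : (edgeGraph pt).Adj i j ↔ disj i j = true :=
  ⟨disj_of_adj, adj_of_disj⟩

open Classical in
lemma adjMatrix_apply' (i j : Fin 27) : (edgeGraph pt).adjMatrix ℝ i j = (A i j : ℝ) := by
  rw [SimpleGraph.adjMatrix_apply]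
  unfold A
  by_cases h : disj i j = true
  · rw [if_pos ((adj_iff i j).2 h), if_pos h]; norm_num
  · rw [if_neg (fun h' => h ((adj_iff i j).1 h')), if_neg h]; norm_num

open Classical in
lemma toLin_apply (x : Fin 27 → ℝ) (i : Fin 27) :
    Matrix.toLin' ((edgeGraph pt).adjMatrix ℝ) x i = ∑ j, (A i j : ℝ) * x j := by
  rw [Matrix.toLin'_apply]
  simp only [Matrix.mulVec, dotProduct]
  apply Finset.sum_congr rfl
  intro j _
  rw [adjMatrix_apply']

open Classical in
lemma mem_eig (x : Fin 27 → ℝ) :
    x ∈ Module.End.eigenspace (Matrix.toLin' ((edgeGraph pt).adjMatrix ℝ)) 1 ↔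
      ∀ i, ∑ j, (A i j : ℝ) * x j = x i := by
  rw [Module.End.mem_eigenspace_iff]
  constructor
  · intro h i
    have := congrFun h i
    rw [toLin_apply] at this
    simpa using this
  · intro h
    funext i
    rw [toLin_apply, h i]
    simp

/-- The columns of the vertex matrix. -/
noncomputable def col (k : Fin 9) : Fin 27 → ℝ := fun i => pt i k

lemma col_ce (k l : Fin 9) : col k (ce l) = if l = k then 1 else 0 := by
  simp only [col, pt, ce]
  rw [hUunit]
  split_ifs <;> simp

lemma col_linInd : LinearIndependent ℝ col := by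
  rw [Fintype.linearIndependent_iff]
  intro g hg k
  have h := congrFun hg (ce k)
  simp only [Finset.sum_apply, Pi.smul_apply, smul_eq_mul, Pi.zero_apply, col_ce] at h
  simpa using h

open Classical in
lemma col_mem (k : Fin 9) :
    col k ∈ Module.End.eigenspace (Matrix.toLin' ((edgeGraph pt).adjMatrix ℝ)) 1 := by
  rw [mem_eig]
  intro i
  have := hAU i k
  simp only [col, pt]
  exact_mod_cast this

open Classical in
lemma span_col : Submodule.span ℝ (range col) =
    Module.End.eigenspace (Matrix.toLin' ((edgeGraph pt).adjMatrix ℝ)) 1 := by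
  apply le_antisymm
  · rw [Submodule.span_le]
    rintro _ ⟨k, rfl⟩
    exact col_mem k
  · intro x hx
    rw [mem_eig] at hx
    have h : x = ∑ k : Fin 9, x (ce k) • col k := by
      funext m
      rw [eig_formula x hx m, Finset.sum_apply]
      apply Finset.sum_congr rfl
      intro k _
      simp only [Pi.smul_apply, smul_eq_mul, col, pt]
      ring
    rw [h]
    exact Submodule.sum_mem _ fun k _ => Submodule.smul_mem _ _
      (Submodule.subset_span (mem_range_self k))

lemma isSpectral : IsSpectral pt := by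
  refine ⟨vertexList, 1, ?_, ?_, ?_⟩
  · rw [Module.End.hasEigenvalue_iff, Submodule.ne_bot_iff]
    refine ⟨col 0, ?_, ?_⟩
    · exact col_mem 0
    · intro h
      have := congrFun h (ce 0)
      rw [col_ce] at this
      simp at this
  · exact col_linInd
  · exact span_col

/-- The invariant inner product matrix (real). -/
noncomputable def Nr : Matrix (Fin 9) (Fin 9) ℝ := fun k l => (N k l : ℝ)

/-- The Gram matrix `∑ p_i p_iᵀ`. -/
noncomputable def Wr : Matrix (Fin 9) (Fin 9) ℝ := fun k l => ∑ i, pt i k * pt i l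

lemma Wr_mul_Nr : Wr * Nr = (1960362 : ℝ) • (1 : Matrix (Fin 9) (Fin 9) ℝ) := by
  ext k l
  rw [Matrix.mul_apply, Matrix.smul_apply, Matrix.one_apply]
  have h := hN k l
  have h' : ∑ j : Fin 9, (∑ i : Fin 27, (U i k : ℝ) * (U i j : ℝ)) * (N j l : ℝ) =
    if k = l then 1960362 else 0 := by exact_mod_cast h
  simp only [Wr, Nr, pt]
  rw [h']
  split_ifs <;> simp

/-- The value of the invariant quadratic form at a vertex. -/
lemma q_eq (i : Fin 27) : (q i : ℝ) = pt i ⬝ᵥ (Nr.mulVec (pt i)) := by
  simp only [q, dotProduct, Matrix.mulVec, Nr, pt]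
  push_cast
  apply Finset.sum_congr rfl
  intro k _
  rw [Finset.mul_sum]
  apply Finset.sum_congr rfl
  intro l _
  ring

lemma sym_trivial (T : (Fin 9 → ℝ) ≃ₗ[ℝ] (Fin 9 → ℝ))
    (hT : T '' convexHull ℝ (range pt) = convexHull ℝ (range pt)) :
    T = LinearEquiv.refl ℝ (Fin 9 → ℝ) := by
  -- `T` permutes the vertices
  have h1 : T '' range pt = range pt := by
    have := image_extremePoints (𝕜 := ℝ) T (convexHull ℝ (range pt))
    rw [hT, vertexList.2] at this
    exact this
  have h2 : ∀ i, ∃ j, pt j = T (pt i) := by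
    intro i
    have : T (pt i) ∈ range pt := by
      rw [← h1]; exact mem_image_of_mem _ (mem_range_self i)
    exact this
  choose σ hσ using h2
  have hinj : Function.Injective σ := by
    intro i j h
    apply pt_inj
    apply T.injective
    rw [← hσ i, ← hσ j, h]
  have hbij : Function.Bijective σ := Finite.injective_iff_bijective.1 hinj
  set τ : Matrix (Fin 9) (Fin 9) ℝ := LinearMap.toMatrix' (T : (Fin 9 → ℝ) →ₗ[ℝ] (Fin 9 → ℝ))
    with hτ
  have hτa : ∀ x, T x = τ.mulVec x := by
    intro x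
    rw [hτ, LinearMap.toMatrix'_mulVec]
    rfl
  -- `τ W τᵀ = W`
  have hW : τ * Wr * τ.transpose = Wr := by
    have hWr : Wr = ∑ i, Matrix.vecMulVec (pt i) (pt i) := by
      ext k l
      rw [Matrix.sum_apply]
      simp only [Wr, Matrix.vecMulVec_apply]
    have h3 : ∀ i, τ * Matrix.vecMulVec (pt i) (pt i) * τ.transpose =
        Matrix.vecMulVec (pt (σ i)) (pt (σ i)) := by
      intro i
      rw [hσ i, hτa, Matrix.mul_vecMulVec, Matrix.vecMulVec_mul, Matrix.vecMul_transpose]
    rw [hWr, Finset.mul_sum, Finset.sum_mul]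
    simp only [h3]
    exact hbij.sum_comp (fun i => Matrix.vecMulVec (pt i) (pt i))
  -- hence `τᵀ N τ = N`
  have hWN : Wr * ((1 / 1960362 : ℝ) • Nr) = 1 := by
    rw [Matrix.mul_smul, Wr_mul_Nr, smul_smul]
    norm_num
  have hNW : ((1 / 1960362 : ℝ) • Nr) * Wr = 1 := mul_eq_one_comm.1 hWN
  have h4 : ((1 / 1960362 : ℝ) • Nr) * τ * Wr * τ.transpose = 1 := by
    rw [Matrix.mul_assoc, Matrix.mul_assoc, ← Matrix.mul_assoc τ Wr, hW, hNW]
  have h5 : τ.transpose * (((1 / 1960362 : ℝ) • Nr) * τ * Wr) = 1 := mul_eq_one_comm.1 h4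
  have h6 : τ.transpose * ((1 / 1960362 : ℝ) • Nr) * τ = (1 / 1960362 : ℝ) • Nr := by
    calc τ.transpose * ((1 / 1960362 : ℝ) • Nr) * τ
        = τ.transpose * ((1 / 1960362 : ℝ) • Nr) * τ * (Wr * ((1 / 1960362 : ℝ) • Nr)) := by
          rw [hWN, Matrix.mul_one]
      _ = (τ.transpose * (((1 / 1960362 : ℝ) • Nr) * τ * Wr)) * ((1 / 1960362 : ℝ) • Nr) := by
          simp only [Matrix.mul_assoc]
      _ = (1 / 1960362 : ℝ) • Nr := by rw [h5, Matrix.one_mul]
  have h7 : τ.transpose * Nr * τ = Nr := by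
    have h8 : (1 / 1960362 : ℝ) • (τ.transpose * Nr * τ) = (1 / 1960362 : ℝ) • Nr := by
      rw [← h6, Matrix.mul_smul, Matrix.smul_mul]
    have h9 : (1 / 1960362 : ℝ) ≠ 0 := by norm_num
    exact smul_right_injective _ h9 h8
  -- so `q (σ i) = q i`, hence `σ = id`
  have hq' : ∀ i, q (σ i) = q i := by
    intro i
    have : (q (σ i) : ℝ) = (q i : ℝ) := by
      rw [q_eq, q_eq, hσ i, hτa, Matrix.mulVec_mulVec]
      rw [← Matrix.vecMul_transpose, ← Matrix.dotProduct_mulVec, Matrix.mulVec_mulVec,
        ← Matrix.mul_assoc, h7]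
    exact_mod_cast this
  have hid : ∀ i, σ i = i := fun i => hq _ _ (hq' i)
  have hfix : ∀ i, T (pt i) = pt i := fun i => by rw [← hσ i, hid i]
  -- the first nine vertices are the standard basis
  have hbasis : ∀ k : Fin 9, pt (ce k) = Pi.single k 1 := by
    intro k
    funext l
    have := hUunit k l
    simp only [pt, ce, Pi.single_apply]
    rw [this]
    by_cases h : k = l
    · simp [h]
    · rw [if_neg h, if_neg (fun h' => h h'.symm)]; simp
  apply LinearEquiv.toLinearMap_injective
  apply LinearMap.pi_ext'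
  intro k
  apply LinearMap.ext_ring
  simp only [LinearMap.coe_comp, Function.comp_apply, LinearMap.coe_single]
  rw [← hbasis k]
  exact hfix (ce k)

end Concrete

/-- **There is a spectral polytope whose symmetry group is trivial**: it has 27 vertices in `ℝ^9`,
and the identity is the only invertible linear map that maps it onto itself. -/
theorem result : ∃ p : Fin 27 → (Fin 9 → ℝ), IsSpectral p ∧
    ∀ T : (Fin 9 → ℝ) ≃ₗ[ℝ] (Fin 9 → ℝ),
      T '' convexHull ℝ (Set.range p) = convexHull ℝ (Set.range p) →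
        T = LinearEquiv.refl ℝ (Fin 9 → ℝ) :=
  ⟨pt, isSpectral, sym_trivial⟩

end Pool.Agent.Results.MP_c2491a_co.AsymmetricSpectral
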